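import Pool.Agent.E8helper24.HP.TateQ

/-!
# The Birch-Swinnerton-Dyer conjecture for an elliptic curve over a function field, or half of the
# Tate classes on all powers of the elliptic surface are not algebraic

Let `E` be an elliptic curve over the function field `K` of a curve over a finite field `𝔽_q`, `X` the
(relatively minimal, smooth projective) elliptic surface over `𝔽_q` with the generic fibre `E`, `b` the
dimension of its whole `ℓ`-adic cohomology,

  `M = 2 b! (5 b!) ^ (b - 1)`,  `m ≥ b³ M² log (2 b M + 1)`,  `C = (16 m b ^ (4 m + 2)) ^ (b² + 2)`.

**Theorem.** Either the rank of `E` over `K_s = K 𝔽_(q^s)` is the analytic rank for all `s ≥ 1` (and the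
cohomology of `X` is semisimple, and the Tate conjecture and the equality of homological and
numerical equivalence are true for all powers of `X`), or **for all `n`** the rank of the group of the
cycles on `X ^ (n + 1)` (over the algebraic closure) modulo numerical equivalence is at most

  `1 / 2 + C log (n + 2) / (n + 1)`

times the number of linearly independent Tate classes (the classes on which a power of the Frobenius
acts by the power of `q`, up to the twist).

So, if the rank of `E` over one `K_s` is less than the analytic rank, at least one half, up to
`C log (n + 2) / (n + 1)`, of the Tate classes on `X ^ (n + 1)` are not algebraic, for all `n`; and if on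
**one** power `X ^ (n + 1)` with `C log (n + 2) / (n + 1) < 1 / 100` the rank of the cycles is more than
51 percent of the number of Tate classes, the conjecture is true for `E` over all `K_s`. The constant
`C` depends only on `b`; nothing is assumed on `E`.

The setting is as in `MP_0fca13_ag.FiftyOnePercentAnyFieldH24` (helper24): `W` is the `ℓ`-adic
cohomology of the varieties over the algebraic closure, `G` the operation of the group generated by
the Frobenius on the cohomology of the powers of `X`, which is integral and such that the Frobenius
elements, with their properties (Deligne, slopes), are dense (`Frobenii`). `IsRanks` is the theorem of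
Artin and Tate: if the Tate classes of degree two on `X` are linear combinations of classes of divisors,
the rank `r s` of `E (K_s)` is the analytic rank `a s`.
-/

open CategoryTheory AlgebraicGeometry

universe u

namespace Pool.Agent.Results.MP_ff7320_nt.HalfOrRankH1

open Pool.Agent.H914 Pool.Agent.H914.VarClass
open Pool.Agent.E8helper1.TP (Gal hdim alg)
open Pool.Agent.E8helper1.TPQ (Frobenii exponent HomNum)
open Pool.Agent.E8helper24.HP (AtMostHalf constant)
open Pool.Agent.Y133.Half (cycRank)
open Pool.Agent.Y129 (pw)

variable {k : Type u} [Field k] {𝒱 : VarClass k} {ops : CycleOps 𝒱}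
  {W : WeilCohomology.{u, 0} ops} {X : 𝒱.Obj}

/-- The numbers `r s` and `a s` are the rank and the analytic rank over `K_s = K 𝔽_(q^s)` of the generic
fibre `E` of the elliptic surface `X`: by the theorem of Artin and Tate they are equal if the Tate
classes of degree two on `X` (over the algebraic closure) are linear combinations of classes of
divisors. -/
def IsRanks (G : Gal W X) (r a : ℕ → ℕ) : Prop :=
  (∀ c ∈ G.tate 0 1, c ∈ Submodule.span W.K (alg W (pw X 0) 1)) → ∀ s, 1 ≤ s → r s = a s

/-- **The rank is the analytic rank, or half of the Tate classes on all powers of the elliptic surface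
are not algebraic.** Here `G.TateConj n` is the Tate conjecture for the product `pw X n` of `n + 1`
copies of `X`, `G.tateDim n` the dimension of the space of its Tate classes, and
`cycRank ops (pw X n)` the rank of its cycles modulo numerical equivalence. -/
theorem result {ℓ : ℕ} [Fact ℓ.Prime] (φ : W.K ≃+* ℚ_[ℓ]) (hX : 0 < hdim W X) (hdim2 : X.dim = 2)
    (G : Gal W X) (hG : Frobenii G φ) (hc : IsCyclic G.Γ) (r a : ℕ → ℕ) (hr : IsRanks G r a)
    (M : ℕ) (hM : M = exponent (hdim W X) 2) (m : ℕ)
    (hm : (hdim W X : ℝ) ^ 3 * (M : ℝ) ^ 2 * Real.log (2 * hdim W X * M + 1) ≤ m) :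
    ((∀ s, 1 ≤ s → r s = a s) ∧ G.Semisimple ∧ ∀ n, G.TateConj n ∧ HomNum W (pw X n)) ∨
      AtMostHalf (fun n => cycRank ops (pw X n)) G.tateDim (constant (hdim W X) m) := by
  rcases Pool.Agent.E8helper24.HP.tate_halfQ φ hX G hG (Or.inl hc) M (by rw [hM, hdim2]) m hm
    with ⟨h1, h2, h3⟩ | h
  · exact Or.inl ⟨hr fun c hcc => h2 0 1 c hcc, h1, fun n => ⟨h2 n, h3 n⟩⟩
  · exact Or.inr h

end Pool.Agent.Results.MP_ff7320_nt.HalfOrRankH1
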